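import Mathlib

/-! The limiting function: `g K x = x(x-1)...(x-m+1) (x-3)^K + x (x-1) (x-2)^K`. -/

namespace Pool.Agent.X53.Orb

open Finset

/-- falling factorial `x (x-1) ... (x-k+1)` -/
noncomputable def ff (k : ℕ) (x : ℝ) : ℝ := ∏ i ∈ Finset.range k, (x - i)

theorem ff_succ (k : ℕ) (x : ℝ) : ff (k + 1) x = ff k x * (x - k) := by
  unfold ff; rw [Finset.prod_range_succ]

theorem ff_succ' (k : ℕ) (x : ℝ) : ff (k + 1) (x + 1) = (x + 1) * ff k x := by
  unfold ff
  rw [Finset.prod_range_succ', mul_comm]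
  push_cast
  congr 1
  · ring
  · apply Finset.prod_congr rfl
    intro i _
    ring

theorem ff_shift (k : ℕ) (x : ℝ) : ff (k + 2) (x + 2) = (x + 2) * (x + 1) * ff k x := by
  have h1 := ff_succ' (k + 1) (x + 1)
  have h2 := ff_succ' k x
  rw [show x + 2 = x + 1 + 1 by ring, h1, h2]
  ring

theorem ff_nonneg {k : ℕ} {x : ℝ} (h : (k : ℝ) - 1 ≤ x) : 0 ≤ ff k x := by
  apply Finset.prod_nonneg
  intro i hi
  rw [Finset.mem_range] at hi
  have : (i : ℝ) + 1 ≤ k := by exact_mod_cast hi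
  linarith

theorem ff_abs_le {k : ℕ} {x R : ℝ} (hx : 0 ≤ x) (hxR : x ≤ R) (hk : (k : ℝ) ≤ R) :
    |ff k x| ≤ R ^ k := by
  unfold ff
  rw [Finset.abs_prod]
  calc ∏ i ∈ Finset.range k, |x - i| ≤ ∏ _i ∈ Finset.range k, R := by
        apply Finset.prod_le_prod
        · intro i _; exact abs_nonneg _
        · intro i hi
          rw [Finset.mem_range] at hi
          have : (i : ℝ) + 1 ≤ k := by exact_mod_cast hi
          rw [abs_le]; constructor <;> linarith
    _ = R ^ k := by rw [Finset.prod_const, Finset.card_range]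

theorem ff_two (x : ℝ) : ff 2 x = x * (x - 1) := by
  unfold ff
  rw [Finset.prod_range_succ, Finset.prod_range_succ, Finset.prod_range_zero]
  push_cast
  ring

/-- the limiting function -/
noncomputable def g (m K : ℕ) (x : ℝ) : ℝ := ff m x * (x - 3) ^ K + x * (x - 1) * (x - 2) ^ K

theorem exists_K (m : ℕ) (hm : 7 ≤ m) :
    ∃ K : ℕ, ∀ x : ℝ, (m : ℝ) - 2 ≤ x → x ≤ (m : ℝ) - 1 → 0 < g m K x := by
  have hm' : (7 : ℝ) ≤ m := by exact_mod_cast hm
  set ρ : ℝ := ((m : ℝ) - 3) / ((m : ℝ) - 4) with hρ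
  have hρ1 : 1 < ρ := by
    rw [hρ, lt_div_iff₀ (by linarith)]; linarith
  obtain ⟨K, hK⟩ := pow_unbounded_of_one_lt ((m : ℝ) ^ m) hρ1
  refine ⟨K, fun x hx1 hx2 => ?_⟩
  have h3 : 0 < x - 3 := by linarith
  have hle : ρ * (x - 3) ≤ x - 2 := by
    rw [hρ, div_mul_eq_mul_div, div_le_iff₀ (by linarith)]
    nlinarith
  have hpow : (ρ * (x - 3)) ^ K ≤ (x - 2) ^ K :=
    pow_le_pow_left₀ (by positivity) hle K
  rw [mul_pow] at hpow
  have hff := ff_abs_le (k := m) (x := x) (R := m) (by linarith) (by linarith) le_rfl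
  have hff' := (abs_le.1 hff).1
  have hp3 : 0 < (x - 3) ^ K := pow_pos h3 K
  have h1 : (m : ℝ) ^ m * (x - 3) ^ K < ρ ^ K * (x - 3) ^ K := mul_lt_mul_of_pos_right hK hp3
  have h2 : 0 ≤ (x - 2) ^ K := by
    apply pow_nonneg; linarith
  have h4 : 1 ≤ x * (x - 1) := by nlinarith
  unfold g
  nlinarith

theorem g0_fail (k : ℕ) : ff (k + 7) ((k : ℝ) + 11 / 2) ≤ - (((k : ℝ) + 11 / 2) * ((k : ℝ) + 9 / 2)) := by
  induction k with
  | zero =>
    unfold ff
    simp only [Finset.prod_range_succ, Finset.prod_range_zero]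
    norm_num
  | succ k ih =>
    have h1 := ff_succ' (k + 7) ((k : ℝ) + 11 / 2)
    have h2 : ((k + 1 : ℕ) : ℝ) + 11 / 2 = (k : ℝ) + 11 / 2 + 1 := by push_cast; ring
    rw [h2, show k + 1 + 7 = k + 7 + 1 by ring, h1]
    have hk : (0 : ℝ) ≤ k := Nat.cast_nonneg k
    push_cast
    have h3 : ((k : ℝ) + 11 / 2 + 1) * ff (k + 7) ((k : ℝ) + 11 / 2) ≤
        ((k : ℝ) + 11 / 2 + 1) * (- (((k : ℝ) + 11 / 2) * ((k : ℝ) + 9 / 2))) :=
      mul_le_mul_of_nonneg_left ih (by linarith)
    have h4 : (0 : ℝ) ≤ ((k : ℝ) + 11 / 2 + 1) * ((k : ℝ) + 11 / 2) := by positivity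
    nlinarith

theorem descent (M K : ℕ) (x : ℝ) (hx4 : 4 ≤ x) (hxM : ((M : ℝ) + 1) / 2 ≤ x) (hx : x + 2 ≤ (M : ℝ) + 1)
    (h : 0 < g (M + 2) K (x + 2)) : 0 < g (M + 2) K x := by
  unfold g at h ⊢
  have e1 := ff_shift M x
  have e2 : ff (M + 2) x = ff M x * ((x - M) * (x - (M + 1))) := by
    rw [ff_succ, ff_succ]; push_cast; ring
  rw [e1] at h
  rw [e2]
  have hs0 : 0 ≤ (x - M) * (x - (M + 1)) := by nlinarith
  have hs1 : (x - M) * (x - (M + 1)) ≤ x * (x - 1) := by nlinarith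
  have hp3 : 0 < (x - 3) ^ K := pow_pos (by linarith) K
  have hp2 : 0 < (x - 2) ^ K := pow_pos (by linarith) K
  have hp1 : 0 < (x - 1) ^ K := pow_pos (by linarith) K
  have hp0 : 0 < x ^ K := pow_pos (by linarith) K
  have hkey : x ^ K * (x - 3) ^ K ≤ (x - 1) ^ K * (x - 2) ^ K := by
    rw [← mul_pow, ← mul_pow]
    apply pow_le_pow_left₀
    · nlinarith
    · nlinarith
  have h' : 0 < (x + 2) * (x + 1) * (ff M x * (x - 1) ^ K + x ^ K) := by
    have : (x + 2) * (x + 1) * ff M x * (x + 2 - 3) ^ K + (x + 2) * (x + 2 - 1) * (x + 2 - 2) ^ K =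
        (x + 2) * (x + 1) * (ff M x * (x - 1) ^ K + x ^ K) := by
      rw [show x + 2 - 3 = x - 1 by ring, show x + 2 - 1 = x + 1 by ring,
        show x + 2 - 2 = x by ring]
      ring
    rw [← this]; exact h
  have h'' : 0 < ff M x * (x - 1) ^ K + x ^ K := by
    by_contra hcon
    push Not at hcon
    have : (x + 2) * (x + 1) * (ff M x * (x - 1) ^ K + x ^ K) ≤ 0 :=
      mul_nonpos_of_nonneg_of_nonpos (by positivity) hcon
    linarith
  rcases le_or_gt 0 (ff M x) with hF | hF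
  · have : 0 ≤ ff M x * ((x - M) * (x - (M + 1))) * (x - 3) ^ K := by positivity
    have : 0 < x * (x - 1) * (x - 2) ^ K := by
      have : 0 < x * (x - 1) := by nlinarith
      positivity
    linarith
  · -- F = - ff M x > 0, F (x-1)^K < x^K
    set F := - ff M x with hFdef
    have hFpos : 0 < F := by linarith
    have hFx : F * (x - 1) ^ K < x ^ K := by
      have : F * (x - 1) ^ K = - (ff M x * (x - 1) ^ K) := by rw [hFdef]; ring
      linarith
    -- F (x-3)^K (x-1)^K < x^K (x-3)^K ≤ (x-1)^K (x-2)^K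
    have h1 : F * (x - 3) ^ K < (x - 2) ^ K := by
      have h2 : F * (x - 1) ^ K * (x - 3) ^ K < x ^ K * (x - 3) ^ K :=
        mul_lt_mul_of_pos_right hFx hp3
      have h3 : (F * (x - 3) ^ K) * (x - 1) ^ K < (x - 2) ^ K * (x - 1) ^ K := by
        nlinarith
      exact lt_of_mul_lt_mul_right h3 hp1.le
    have h4 : F * (x - 3) ^ K * ((x - M) * (x - (M + 1))) ≤ F * (x - 3) ^ K * (x * (x - 1)) :=
      mul_le_mul_of_nonneg_left hs1 (by positivity)
    have h5 : F * (x - 3) ^ K * (x * (x - 1)) < (x - 2) ^ K * (x * (x - 1)) :=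
      mul_lt_mul_of_pos_right h1 (by nlinarith)
    have h6 : ff M x = - F := by rw [hFdef]; ring
    rw [h6]
    nlinarith

theorem ana (N : ℕ) : ∃ (K : ℕ) (x1 : ℝ), ((2 * N + 20 : ℕ) : ℝ) - 2 ≤ x1 ∧
    x1 ≤ ((2 * N + 20 : ℕ) : ℝ) - 1 ∧
    (∀ x : ℝ, (N : ℝ) + 18 ≤ x → 0 < g (2 * N + 20) K x) ∧
    2 * (ff (2 * N + 20) x1 * (x1 - 3) ^ K) + x1 * (x1 - 1) * (x1 - 2) ^ K < 0 := by
  classical
  set m := 2 * N + 20 with hm
  have hN : (0 : ℝ) ≤ N := Nat.cast_nonneg N
  have hmr : (m : ℝ) = 2 * N + 20 := by rw [hm]; push_cast; ring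
  have hex := exists_K m (by omega)
  set K := Nat.find hex with hK
  have hKs := Nat.find_spec hex
  have hK0 : K ≠ 0 := by
    intro h0
    have h1 := hKs ((m : ℝ) - 3 / 2) (by linarith) (by linarith)
    rw [← hK, h0] at h1
    unfold g at h1
    rw [pow_zero, pow_zero, mul_one, mul_one] at h1
    have h2 := g0_fail (m - 7)
    have h3 : ((m - 7 : ℕ) : ℝ) = (m : ℝ) - 7 := by
      rw [Nat.cast_sub (by omega)]; norm_num
    rw [h3, show m - 7 + 7 = m by omega,
      show (m : ℝ) - 7 + 11 / 2 = (m : ℝ) - 3 / 2 by ring] at h2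
    nlinarith
  have hfail := Nat.find_min hex (m := K - 1) (by omega)
  push Not at hfail
  obtain ⟨x1, hx1, hx2, hx3⟩ := hfail
  refine ⟨K, x1, hx1, hx2, ?_, ?_⟩
  · have hbase : ∀ x : ℝ, (m : ℝ) - 3 ≤ x → 0 < g m K x := by
      intro x hx
      have hpos : 0 < x * (x - 1) * (x - 2) ^ K := by
        have h1 : 0 < x * (x - 1) := by nlinarith
        have h2 : 0 < (x - 2) ^ K := pow_pos (by linarith) K
        positivity
      have hp3 : 0 ≤ (x - 3) ^ K := pow_nonneg (by linarith) K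
      rcases le_total x ((m : ℝ) - 1) with h1 | h1
      · rcases le_total x ((m : ℝ) - 2) with h2 | h2
        · -- two non-positive factors
          have e : m = (2 * N + 18) + 2 := by omega
          have hff : 0 ≤ ff m x := by
            rw [e, ff_succ, ff_succ, mul_assoc]
            apply mul_nonneg
            · apply ff_nonneg; push_cast; linarith
            · push_cast
              nlinarith
          unfold g
          have := mul_nonneg hff hp3
          linarith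
        · exact hKs x h2 h1
      · have hff : 0 ≤ ff m x := ff_nonneg h1
        unfold g
        have := mul_nonneg hff hp3
        linarith
    have hind : ∀ n : ℕ, ∀ x : ℝ, (m : ℝ) - 3 - 2 * n ≤ x → (N : ℝ) + 18 ≤ x → 0 < g m K x := by
      intro n
      induction n with
      | zero =>
        intro x hx _
        apply hbase
        push_cast at hx
        linarith
      | succ n ih =>
        intro x hx hxN
        rcases le_total ((m : ℝ) - 3) x with h | h
        · exact hbase x h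
        · have h2 := ih (x + 2) (by push_cast at hx; linarith) (by linarith)
          have e : m = (2 * N + 18) + 2 := by omega
          rw [e] at h2 ⊢
          apply descent (2 * N + 18) K x (by linarith) (by push_cast; linarith)
            (by push_cast; linarith) h2
    intro x hx
    apply hind m x _ hx
    linarith
  · unfold g at hx3
    have hp : (x1 - 3) ^ K = (x1 - 3) ^ (K - 1) * (x1 - 3) := by
      rw [← pow_succ]; congr 1; omega
    have hp' : (x1 - 2) ^ K = (x1 - 2) ^ (K - 1) * (x1 - 2) := by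
      rw [← pow_succ]; congr 1; omega
    rw [hp, hp']
    set A := ff m x1 * (x1 - 3) ^ (K - 1) with hA
    set Bq := x1 * (x1 - 1) * (x1 - 2) ^ (K - 1) with hB
    have hBpos : 0 < Bq := by
      have h1 : 0 < x1 * (x1 - 1) := by nlinarith
      have h2 : 0 < (x1 - 2) ^ (K - 1) := pow_pos (by linarith) _
      positivity
    have e1 : 2 * (ff m x1 * ((x1 - 3) ^ (K - 1) * (x1 - 3))) +
        x1 * (x1 - 1) * ((x1 - 2) ^ (K - 1) * (x1 - 2)) = 2 * (A * (x1 - 3)) + Bq * (x1 - 2) := by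
      rw [hA, hB]; ring
    rw [e1]
    have hAB : A + Bq ≤ 0 := hx3
    have h3 : 0 < x1 - 3 := by linarith
    have h5 : (A + Bq) * (x1 - 3) ≤ 0 := mul_nonpos_of_nonpos_of_nonneg hAB h3.le
    have h6 : 0 < Bq * (x1 - 4) := mul_pos hBpos (by linarith)
    nlinarith

end Pool.Agent.X53.Orb
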