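import Mathlib

/-! Counting proper colourings of a graph with attached vertices, by the kernel of the colouring. -/

namespace Pool.Agent.X53.Orb

open Finset Classical

/-- Proper colourings of `Γ` with colours `Fin q`. -/
def ProperCol {V : Type} (Γ : SimpleGraph V) (q : ℕ) : Type :=
  {c : V → Fin q // ∀ u v, Γ.Adj u v → c u ≠ c v}

instance {V : Type} [Fintype V] (Γ : SimpleGraph V) (q : ℕ) : Finite (ProperCol Γ q) :=
  Subtype.finite

variable {C B : Type} [Fintype C] [Fintype B]

/-- The graph obtained from `Γ0` by attaching to each `b : B` a new vertex adjacent to `N b`. -/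
def attach (Γ0 : SimpleGraph C) (N : B → Finset C) : SimpleGraph (C ⊕ B) where
  Adj x y := match x, y with
    | Sum.inl u, Sum.inl v => Γ0.Adj u v
    | Sum.inl u, Sum.inr b => u ∈ N b
    | Sum.inr b, Sum.inl u => u ∈ N b
    | Sum.inr _, Sum.inr _ => False
  symm := by
    constructor
    rintro (u | b) (v | b') h
    · exact Γ0.adj_symm h
    · exact h
    · exact h
    · exact h
  loopless := by
    constructor
    rintro (u | b) h
    · exact Γ0.loopless.irrefl u h
    · exact h

noncomputable instance fintypeSetoid : Fintype (Setoid C) :=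
  Fintype.ofInjective (fun s : Setoid C => s.r) (fun s t h => Setoid.ext (fun a b => by
    have := congrFun (congrFun h a) b
    exact Iff.of_eq this))

/-- number of classes of `π` met by `S` -/
noncomputable def cnt (π : Setoid C) (S : Finset C) : ℕ := (S.image (Quotient.mk π)).card

theorem card_quotient (π : Setoid C) : Nat.card (Quotient π) = cnt π Finset.univ := by
  unfold cnt
  rw [Finset.image_univ_of_surjective (Quotient.mk_surjective), Finset.card_univ,
    Nat.card_eq_fintype_card]

theorem cnt_ker {D : Type} (κ : C → D) (S : Finset C) :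
    cnt (Setoid.ker κ) S = (S.image κ).card := by
  unfold cnt
  have : S.image κ = (S.image (Quotient.mk (Setoid.ker κ))).image
      (Quotient.lift κ (fun a b h => h)) := by
    rw [Finset.image_image]
    rfl
  rw [this]
  refine (Finset.card_image_of_injective _ ?_).symm
  intro a b
  induction a using Quotient.inductionOn
  induction b using Quotient.inductionOn
  intro h
  exact Quotient.sound h

/-- `π` separates adjacent vertices. -/
def PropS (Γ0 : SimpleGraph C) (π : Setoid C) : Prop := ∀ u v, Γ0.Adj u v → ¬ π u v

theorem fiber_equiv_card (Γ0 : SimpleGraph C) (N : B → Finset C) (q : ℕ) (π : Setoid C)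
    (hπ : PropS Γ0 π) :
    Nat.card {f : ProperCol (attach Γ0 N) q // Setoid.ker (fun u => f.1 (Sum.inl u)) = π} =
    Nat.card {hk : (Quotient π ↪ Fin q) × (B → Fin q) //
      ∀ b, ∀ u ∈ N b, hk.1 (Quotient.mk π u) ≠ hk.2 b} := by
  apply Nat.card_congr
  refine
    { toFun := fun f => ⟨(⟨Quotient.lift (fun u => f.1.1 (Sum.inl u)) (by
          intro a b hab
          have : Setoid.ker (fun u => f.1.1 (Sum.inl u)) a b := by rw [f.2]; exact hab
          exact this), by
          intro a b
          induction a using Quotient.inductionOn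
          induction b using Quotient.inductionOn
          intro h
          apply Quotient.sound
          have h' : Setoid.ker (fun u => f.1.1 (Sum.inl u)) _ _ := h
          rw [f.2] at h'
          exact h'⟩, fun b => f.1.1 (Sum.inr b)), by
          intro b u hu
          exact f.1.2 (Sum.inl u) (Sum.inr b) hu⟩
      invFun := fun hk => ⟨⟨Sum.elim (fun u => hk.1.1 (Quotient.mk π u)) hk.1.2, by
          rintro (u | b) (v | b') h
          · intro heq
            have h1 := hk.1.1.injective heq
            exact hπ u v h (Quotient.exact h1)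
          · exact hk.2 b' u h
          · exact (hk.2 b v h).symm
          · exact h.elim⟩, by
          ext a b
          constructor
          · intro h
            have h1 : hk.1.1 (Quotient.mk π a) = hk.1.1 (Quotient.mk π b) := h
            exact Quotient.exact (hk.1.1.injective h1)
          · intro h
            have h1 : Quotient.mk π a = Quotient.mk π b := Quotient.sound h
            show hk.1.1 (Quotient.mk π a) = hk.1.1 (Quotient.mk π b)
            rw [h1]⟩
      left_inv := ?_
      right_inv := ?_ }
  · rintro ⟨⟨f, hf⟩, hker⟩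
    apply Subtype.ext
    apply Subtype.ext
    funext x
    rcases x with u | b <;> rfl
  · rintro ⟨⟨h, k⟩, hhk⟩
    apply Subtype.ext
    apply Prod.ext
    · ext x
      induction x using Quotient.inductionOn
      rfl
    · rfl

theorem pair_card (N : B → Finset C) (q : ℕ) (π : Setoid C) :
    Nat.card {hk : (Quotient π ↪ Fin q) × (B → Fin q) //
      ∀ b, ∀ u ∈ N b, hk.1 (Quotient.mk π u) ≠ hk.2 b} =
    q.descFactorial (cnt π Finset.univ) * ∏ b, (q - cnt π (N b)) := by
  have e1 : Nat.card {hk : (Quotient π ↪ Fin q) × (B → Fin q) //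
      ∀ b, ∀ u ∈ N b, hk.1 (Quotient.mk π u) ≠ hk.2 b} =
      Nat.card (Σ h : (Quotient π ↪ Fin q), {k : B → Fin q //
        ∀ b, ∀ u ∈ N b, h (Quotient.mk π u) ≠ k b}) := by
    apply Nat.card_congr
    exact Equiv.subtypeProdEquivSigmaSubtype
      (fun (h : Quotient π ↪ Fin q) (k : B → Fin q) => ∀ b, ∀ u ∈ N b, h (Quotient.mk π u) ≠ k b)
  rw [e1, Nat.card_sigma]
  have e2 : ∀ h : (Quotient π ↪ Fin q), Nat.card {k : B → Fin q //
        ∀ b, ∀ u ∈ N b, h (Quotient.mk π u) ≠ k b} = ∏ b, (q - cnt π (N b)) := by
    intro h
    have e3 : Nat.card {k : B → Fin q // ∀ b, ∀ u ∈ N b, h (Quotient.mk π u) ≠ k b} =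
        Nat.card (∀ b : B, {x : Fin q // ∀ u ∈ N b, h (Quotient.mk π u) ≠ x}) := by
      apply Nat.card_congr
      exact Equiv.subtypePiEquivPi (p := fun (b : B) (x : Fin q) =>
        ∀ u ∈ N b, h (Quotient.mk π u) ≠ x)
    rw [e3, Nat.card_pi]
    apply Finset.prod_congr rfl
    intro b _
    rw [Nat.card_eq_fintype_card, Fintype.card_subtype]
    have e4 : (Finset.univ.filter (fun x : Fin q => ∀ u ∈ N b, h (Quotient.mk π u) ≠ x)) =
        (((N b).image (Quotient.mk π)).image h)ᶜ := by
      ext x
      simp only [Finset.mem_filter, Finset.mem_univ, true_and, Finset.mem_compl,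
        Finset.mem_image, not_exists, not_and]
      constructor
      · rintro h1 y ⟨u, hu, rfl⟩ hx
        exact h1 u hu hx
      · intro h1 u hu hx
        exact h1 _ ⟨u, hu, rfl⟩ hx
    rw [e4, Finset.card_compl, Fintype.card_fin, Finset.card_image_of_injective _ h.injective]
    rfl
  rw [Finset.sum_congr rfl (fun h _ => e2 h), Finset.sum_const, Finset.card_univ,
    Fintype.card_embedding_eq, smul_eq_mul, Fintype.card_fin]
  rw [← card_quotient, Nat.card_eq_fintype_card]

theorem fiber_card (Γ0 : SimpleGraph C) (N : B → Finset C) (q : ℕ) (π : Setoid C) :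
    Nat.card {f : ProperCol (attach Γ0 N) q // Setoid.ker (fun u => f.1 (Sum.inl u)) = π} =
    if PropS Γ0 π then q.descFactorial (cnt π Finset.univ) * ∏ b, (q - cnt π (N b)) else 0 := by
  by_cases hπ : PropS Γ0 π
  · rw [if_pos hπ, fiber_equiv_card Γ0 N q π hπ, pair_card]
  · rw [if_neg hπ]
    have : IsEmpty {f : ProperCol (attach Γ0 N) q //
        Setoid.ker (fun u => f.1 (Sum.inl u)) = π} := by
      constructor
      rintro ⟨f, hf⟩
      apply hπ
      intro u v huv hcon
      rw [← hf] at hcon
      exact f.2 (Sum.inl u) (Sum.inl v) huv hcon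
    exact Nat.card_of_isEmpty

theorem total_card (Γ0 : SimpleGraph C) (N : B → Finset C) (q : ℕ) :
    Nat.card (ProperCol (attach Γ0 N) q) =
    ∑ π : Setoid C, if PropS Γ0 π then
      q.descFactorial (cnt π Finset.univ) * ∏ b, (q - cnt π (N b)) else 0 := by
  have e : Nat.card (ProperCol (attach Γ0 N) q) =
      Nat.card (Σ π : Setoid C, {f : ProperCol (attach Γ0 N) q //
        Setoid.ker (fun u => f.1 (Sum.inl u)) = π}) :=
    Nat.card_congr (Equiv.sigmaFiberEquiv
      (fun f : ProperCol (attach Γ0 N) q => Setoid.ker (fun u => f.1 (Sum.inl u)))).symm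
  rw [e, Nat.card_sigma]
  exact Finset.sum_congr rfl (fun π _ => fiber_card Γ0 N q π)

/-- The number of classes of an involution. -/
theorem two_mul_card_quot {X : Type} [Finite X] (τ : X → X) (hτ : ∀ x, τ (τ x) = x)
    (r : X → X → Prop) (hr : ∀ x y, r x y ↔ y = x ∨ y = τ x) :
    2 * Nat.card (Quot r) = Nat.card X + Nat.card {x : X // τ x = x} := by
  have hfin := Fintype.ofFinite X
  have heqv : Equivalence r := by
    refine ⟨fun x => (hr x x).2 (Or.inl rfl), fun {x y} h => ?_, fun {x y z} h1 h2 => ?_⟩
    · rw [hr] at h ⊢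
      rcases h with h | h
      · exact Or.inl h.symm
      · right; rw [h, hτ]
    · rw [hr] at h1 h2 ⊢
      rcases h1 with h1 | h1 <;> rcases h2 with h2 | h2
      · left; rw [h2, h1]
      · right; rw [h2, h1]
      · right; rw [h2, h1]
      · left; rw [h2, h1, hτ]
  have hmk : ∀ x y, Quot.mk r x = Quot.mk r y ↔ r x y := fun x y => heqv.quot_mk_eq_iff x y
  have hfinq : Fintype (Quot r) := Fintype.ofSurjective (Quot.mk r) Quot.mk_surjective
  rw [Nat.card_eq_fintype_card, Nat.card_eq_fintype_card, Nat.card_eq_fintype_card,
    Fintype.card_subtype]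
  have h1 : Fintype.card X = ∑ c : Quot r, (Finset.univ.filter (fun x => Quot.mk r x = c)).card := by
    rw [← Finset.card_univ]
    exact Finset.card_eq_sum_card_fiberwise (fun x _ => Finset.mem_coe.2 (Finset.mem_univ _))
  have h2 : (Finset.univ.filter (fun x => τ x = x)).card =
      ∑ c : Quot r, ((Finset.univ.filter (fun x => τ x = x)).filter
        (fun x => Quot.mk r x = c)).card :=
    Finset.card_eq_sum_card_fiberwise (fun x _ => Finset.mem_coe.2 (Finset.mem_univ _))
  rw [h1, h2, ← Finset.sum_add_distrib]
  have h3 : ∀ c : Quot r, (Finset.univ.filter (fun x => Quot.mk r x = c)).card +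
      ((Finset.univ.filter (fun x => τ x = x)).filter (fun x => Quot.mk r x = c)).card = 2 := by
    intro c
    obtain ⟨x, rfl⟩ := Quot.exists_rep c
    have h4 : Finset.univ.filter (fun y => Quot.mk r y = Quot.mk r x) = {x, τ x} := by
      ext y
      rw [Finset.mem_filter, hmk, hr, Finset.mem_insert, Finset.mem_singleton]
      constructor
      · rintro ⟨-, h | h⟩
        · exact Or.inl h.symm
        · right; rw [h, hτ]
      · rintro (h | h)
        · exact ⟨Finset.mem_univ _, Or.inl h.symm⟩
        · exact ⟨Finset.mem_univ _, Or.inr (by rw [h, hτ])⟩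
    have h5 : (Finset.univ.filter (fun x => τ x = x)).filter (fun y => Quot.mk r y = Quot.mk r x) =
        ({x, τ x} : Finset X).filter (fun y => τ y = y) := by
      rw [← h4, Finset.filter_filter, Finset.filter_filter]
      congr 1
      funext y
      exact propext and_comm
    rw [h4, h5]
    by_cases hx : τ x = x
    · rw [hx]
      have : ({x, x} : Finset X) = {x} := by simp
      rw [this]
      have h6 : ({x} : Finset X).filter (fun y => τ y = y) = {x} := by
        rw [Finset.filter_singleton, if_pos hx]
      rw [h6]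
      simp
    · have h7 : x ≠ τ x := fun h => hx h.symm
      rw [Finset.card_pair h7]
      have h6 : ({x, τ x} : Finset X).filter (fun y => τ y = y) = ∅ := by
        rw [Finset.filter_eq_empty_iff]
        intro y hy
        rw [Finset.mem_insert, Finset.mem_singleton] at hy
        rcases hy with rfl | rfl
        · exact hx
        · rw [hτ]; exact fun h => hx h.symm
      rw [h6]
      simp
  rw [Finset.sum_congr rfl (fun c _ => h3 c), Finset.sum_const, Finset.card_univ, smul_eq_mul,
    mul_comm]

end Pool.Agent.X53.Orb
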