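import Mathlib
import Pool.Agent.X53.Orb.Cnt
import Pool.Agent.X53.Orb.Ana

/-! The crown graph, its proper kernels, and the terms of the chromatic polynomial. -/

namespace Pool.Agent.X53.Orb

open Finset Classical

/-- The crown graph on `Fin m × Bool`: `(i,a) ~ (j,b)` iff `i ≠ j` and `a ≠ b`. -/
def crown (m : ℕ) : SimpleGraph (Fin m × Bool) where
  Adj u v := u.1 ≠ v.1 ∧ u.2 ≠ v.2
  symm := by
    constructor
    intro u v h
    exact ⟨h.1.symm, h.2.symm⟩
  loopless := by
    constructor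
    intro u h
    exact h.1 rfl

/-- ordered pairs of distinct indices -/
abbrev PairT (m : ℕ) : Type := {p : Fin m × Fin m // p.1 ≠ p.2}

/-- both copies of the indices in `I` -/
def dbl {m : ℕ} (I : Finset (Fin m)) : Finset (Fin m × Bool) := I ×ˢ (Finset.univ : Finset Bool)

def SP {m : ℕ} (p : PairT m) : Finset (Fin m × Bool) := dbl {p.1.1, p.1.2}

/-- merged kernel -/
def πs (m : ℕ) : Setoid (Fin m × Bool) := Setoid.ker Prod.fst

/-- two-sided kernel -/
def πd (m : ℕ) : Setoid (Fin m × Bool) := Setoid.ker Prod.snd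

theorem cnt_πs {m : ℕ} (I : Finset (Fin m)) : cnt (πs m) (dbl I) = I.card := by
  unfold πs dbl
  rw [cnt_ker]
  congr 1
  ext i
  simp only [Finset.mem_image, Finset.mem_product, Finset.mem_univ, and_true, Prod.exists,
    exists_and_right, exists_eq_right]
  simp

theorem cnt_πd {m : ℕ} (I : Finset (Fin m)) (hI : I.Nonempty) : cnt (πd m) (dbl I) = 2 := by
  unfold πd dbl
  rw [cnt_ker]
  have h2 : (2 : ℕ) = (Finset.univ : Finset Bool).card := rfl
  rw [h2]
  congr 1
  obtain ⟨i, hi⟩ := hI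
  ext b
  simp only [Finset.mem_image, Finset.mem_product, Finset.mem_univ, and_true, Prod.exists,
    iff_true]
  exact ⟨i, b, hi, rfl⟩

theorem dbl_univ (m : ℕ) : (Finset.univ : Finset (Fin m × Bool)) = dbl Finset.univ := by
  ext u; simp [dbl]

theorem card_dbl {m : ℕ} (I : Finset (Fin m)) : (dbl I).card = 2 * I.card := by
  unfold dbl
  rw [Finset.card_product]
  simp [mul_comm]

theorem cnt_le {C : Type} (π : Setoid C) (S : Finset C) : cnt π S ≤ S.card :=
  Finset.card_image_le

theorem cnt_two_le {m : ℕ} {π : Setoid (Fin m × Bool)} (hπ : PropS (crown m) π)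
    {I : Finset (Fin m)} {i j : Fin m} (hi : i ∈ I) (hj : j ∈ I) (hij : i ≠ j) :
    2 ≤ cnt π (dbl I) := by
  unfold cnt
  apply Finset.one_lt_card.2
  refine ⟨Quotient.mk π (i, false), ?_, Quotient.mk π (j, true), ?_, ?_⟩
  · exact Finset.mem_image_of_mem _ (by simp [dbl, hi])
  · exact Finset.mem_image_of_mem _ (by simp [dbl, hj])
  · intro h
    exact hπ (i, false) (j, true) ⟨hij, by simp⟩ (Quotient.exact h)

theorem dichotomy {m : ℕ} {π : Setoid (Fin m × Bool)} (hπ : PropS (crown m) π)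
    {i j : Fin m} (hij : i ≠ j) (h : cnt π (dbl {i, j}) ≤ 2) :
    (π (i, false) (i, true) ∧ π (j, false) (j, true)) ∨
    (π (i, false) (j, false) ∧ π (i, true) (j, true)) := by
  -- the image is {[i,false],[j,true]}
  have hne : Quotient.mk π (i, false) ≠ Quotient.mk π (j, true) := fun h' =>
    hπ (i, false) (j, true) ⟨hij, by simp⟩ (Quotient.exact h')
  have hsub : ({Quotient.mk π (i, false), Quotient.mk π (j, true)} : Finset (Quotient π)) ⊆
      (dbl {i, j}).image (Quotient.mk π) := by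
    intro x hx
    rw [Finset.mem_insert, Finset.mem_singleton] at hx
    rcases hx with rfl | rfl
    · exact Finset.mem_image_of_mem _ (by simp [dbl])
    · exact Finset.mem_image_of_mem _ (by simp [dbl])
  have heq := Finset.eq_of_subset_of_card_le hsub (by
    rw [Finset.card_pair hne]; exact h)
  have h1 : Quotient.mk π (i, true) ∈ (dbl {i, j}).image (Quotient.mk π) :=
    Finset.mem_image_of_mem _ (by simp [dbl])
  have h2 : Quotient.mk π (j, false) ∈ (dbl {i, j}).image (Quotient.mk π) :=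
    Finset.mem_image_of_mem _ (by simp [dbl])
  rw [← heq, Finset.mem_insert, Finset.mem_singleton] at h1 h2
  have h3 : Quotient.mk π (i, true) ≠ Quotient.mk π (j, false) := fun h' =>
    hπ (i, true) (j, false) ⟨hij, by simp⟩ (Quotient.exact h')
  rcases h1 with h1 | h1
  · rcases h2 with h2 | h2
    · exact absurd (h1.trans h2.symm) h3
    · exact Or.inl ⟨Quotient.exact h1.symm, Quotient.exact h2⟩
  · rcases h2 with h2 | h2
    · exact Or.inr ⟨Quotient.exact h2.symm, Quotient.exact h1⟩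
    · exact absurd (h1.trans h2.symm) h3

theorem classify {m : ℕ} {π : Setoid (Fin m × Bool)} (hπ : PropS (crown m) π)
    (h : ∀ i j : Fin m, i ≠ j → cnt π (dbl {i, j}) ≤ 2) (h1 : π ≠ πs m) : π = πd m := by
  -- no index is merged
  have hnm : ∀ i, ¬ π (i, false) (i, true) := by
    intro i hi
    apply h1
    have hall : ∀ j, π (j, false) (j, true) := by
      intro j
      by_cases hij : i = j
      · rw [← hij]; exact hi
      · rcases dichotomy hπ hij (h i j hij) with h2 | h2
        · exact h2.2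
        · exact absurd (π.trans hi h2.2) (hπ (i, false) (j, true) ⟨hij, by simp⟩)
    have hall' : ∀ j a b, π (j, a) (j, b) := by
      intro j a b
      cases a <;> cases b
      · exact π.refl _
      · exact hall j
      · exact π.symm (hall j)
      · exact π.refl _
    ext ⟨i, a⟩ ⟨j, b⟩
    show π (i, a) (j, b) ↔ i = j
    constructor
    · intro hab
      by_contra hij
      cases a
      · exact hπ (i, false) (j, true) ⟨hij, by simp⟩ (π.trans hab (hall' j b true))
      · exact hπ (i, true) (j, false) ⟨hij, by simp⟩ (π.trans hab (hall' j b false))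
    · rintro rfl
      exact hall' i a b
  have hpar : ∀ i j a, π (i, a) (j, a) := by
    intro i j a
    by_cases hij : i = j
    · rw [hij]
    · rcases dichotomy hπ hij (h i j hij) with h2 | h2
      · exact absurd h2.1 (hnm i)
      · cases a
        · exact h2.1
        · exact h2.2
  ext ⟨i, a⟩ ⟨j, b⟩
  show π (i, a) (j, b) ↔ a = b
  constructor
  · intro hab
    by_contra hne
    have h3 : π (i, a) (i, b) := π.trans hab (hpar j i b)
    cases a <;> cases b
    · exact hne rfl
    · exact hnm i h3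
    · exact hnm i (π.symm h3)
    · exact hne rfl
  · rintro rfl
    exact hpar i j a

theorem propS_πs (m : ℕ) : PropS (crown m) (πs m) := by
  intro u v h h'
  exact h.1 h'

theorem propS_πd (m : ℕ) : PropS (crown m) (πd m) := by
  intro u v h h'
  exact h.2 h'

/-- the term of the chromatic polynomial belonging to `π` -/
noncomputable def Tm (m T K : ℕ) (I3 : Finset (Fin m)) (π : Setoid (Fin m × Bool)) (x : ℝ) : ℝ :=
  ff (cnt π Finset.univ) x *
    ((∏ p : PairT m, (x - cnt π (SP p))) ^ T * (x - cnt π (dbl I3)) ^ K)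

theorem Tm_πs (m T K : ℕ) (I3 : Finset (Fin m)) (h3 : I3.card = 3) (x : ℝ) :
    Tm m T K I3 (πs m) x =
      ff m x * (((x - 2) ^ Fintype.card (PairT m)) ^ T * (x - 3) ^ K) := by
  unfold Tm
  have h1 : cnt (πs m) Finset.univ = m := by
    rw [dbl_univ, cnt_πs]; simp
  have h2 : ∀ p : PairT m, cnt (πs m) (SP p) = 2 := by
    intro p
    unfold SP
    rw [cnt_πs, Finset.card_pair p.2]
  rw [h1, cnt_πs, h3, Finset.prod_congr rfl (fun p _ => by rw [h2 p]), Finset.prod_const,
    Finset.card_univ]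
  push_cast
  rfl

theorem Tm_πd (m T K : ℕ) (hm : 0 < m) (I3 : Finset (Fin m)) (h3 : I3.card = 3) (x : ℝ) :
    Tm m T K I3 (πd m) x =
      ff 2 x * (((x - 2) ^ Fintype.card (PairT m)) ^ T * (x - 2) ^ K) := by
  unfold Tm
  have h1 : cnt (πd m) Finset.univ = 2 := by
    rw [dbl_univ]
    exact cnt_πd _ ⟨⟨0, hm⟩, Finset.mem_univ _⟩
  have h2 : ∀ p : PairT m, cnt (πd m) (SP p) = 2 := by
    intro p
    unfold SP
    exact cnt_πd _ ⟨p.1.1, by simp⟩
  have h4 : cnt (πd m) (dbl I3) = 2 := cnt_πd _ (by rw [← Finset.card_pos]; omega)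
  rw [h1, h4, Finset.prod_congr rfl (fun p _ => by rw [h2 p]), Finset.prod_const,
    Finset.card_univ]
  push_cast
  rfl

theorem SP_le {m : ℕ} (π : Setoid (Fin m × Bool)) (p : PairT m) : cnt π (SP p) ≤ 4 := by
  have h1 := cnt_le π (SP p)
  unfold SP at h1 ⊢
  rw [card_dbl, Finset.card_pair p.2] at h1
  omega

theorem univ_le {m : ℕ} (π : Setoid (Fin m × Bool)) : cnt π Finset.univ ≤ 2 * m := by
  have h1 := cnt_le π (Finset.univ)
  rw [dbl_univ, card_dbl] at h1
  rw [dbl_univ]
  simpa using h1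

theorem SP_ge {m : ℕ} {π : Setoid (Fin m × Bool)} (hπ : PropS (crown m) π) (p : PairT m) :
    2 ≤ cnt π (SP p) :=
  cnt_two_le hπ (i := p.1.1) (j := p.1.2) (by simp) (by simp) p.2

/-- the bound for the other terms -/
theorem Tm_bound (m T K : ℕ) (hm : 3 ≤ m) (I3 : Finset (Fin m)) (h3 : I3.card = 3)
    (π : Setoid (Fin m × Bool)) (hπ : PropS (crown m) π) (h1 : π ≠ πs m) (h2 : π ≠ πd m)
    (x : ℝ) (hx : 6 ≤ x) (hx2 : x ≤ 2 * m) :
    |Tm m T K I3 π x| ≤ (2 * (m : ℝ)) ^ (2 * m) * ((2 * (m : ℝ)) ^ K *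
      (((2 * (m : ℝ) - 3) / (2 * m - 2)) ^ T * ((x - 2) ^ Fintype.card (PairT m)) ^ T)) := by
  have hmr : (3 : ℝ) ≤ m := by exact_mod_cast hm
  -- a pair with at least three classes
  obtain ⟨p0, hp0⟩ : ∃ p0 : PairT m, 3 ≤ cnt π (SP p0) := by
    by_contra hcon
    push Not at hcon
    apply h2
    apply classify hπ _ h1
    intro i j hij
    have h5 : cnt π (dbl {i, j}) < 3 := hcon ⟨(i, j), hij⟩
    omega
  have hcs : ∀ p : PairT m, (2 : ℝ) ≤ cnt π (SP p) ∧ (cnt π (SP p) : ℝ) ≤ 4 := by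
    intro p
    exact ⟨by exact_mod_cast SP_ge hπ p, by exact_mod_cast SP_le π p⟩
  have hp0' : (3 : ℝ) ≤ cnt π (SP p0) := by exact_mod_cast hp0
  have hc3 : (cnt π (dbl I3) : ℝ) ≤ 6 := by
    have := cnt_le π (dbl I3)
    rw [card_dbl, h3] at this
    exact_mod_cast this
  have hku : (cnt π Finset.univ) ≤ 2 * m := univ_le π
  have hff : |ff (cnt π Finset.univ) x| ≤ (2 * (m : ℝ)) ^ (2 * m) := by
    have e1 := ff_abs_le (k := cnt π Finset.univ) (x := x) (R := 2 * (m : ℝ)) (by linarith) hx2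
      (by exact_mod_cast hku)
    exact e1.trans (pow_le_pow_right₀ (by linarith) hku)
  have hprod0 : 0 ≤ ∏ p : PairT m, (x - cnt π (SP p)) :=
    Finset.prod_nonneg (fun p _ => by have := (hcs p).2; linarith)
  have hprod : ∏ p : PairT m, (x - cnt π (SP p)) ≤
      (2 * (m : ℝ) - 3) / (2 * m - 2) * (x - 2) ^ Fintype.card (PairT m) := by
    rw [← Finset.mul_prod_erase _ _ (Finset.mem_univ p0)]
    have e1 : ∏ p ∈ Finset.univ.erase p0, (x - (cnt π (SP p) : ℝ)) ≤
        ∏ _p ∈ (Finset.univ.erase p0 : Finset (PairT m)), (x - 2) := by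
      apply Finset.prod_le_prod
      · intro p _; have := (hcs p).2; linarith
      · intro p _; have := (hcs p).1; linarith
    rw [Finset.prod_const, Finset.card_erase_of_mem (Finset.mem_univ p0), Finset.card_univ] at e1
    have e2 : x - cnt π (SP p0) ≤ (2 * (m : ℝ) - 3) / (2 * m - 2) * (x - 2) := by
      rw [div_mul_eq_mul_div, le_div_iff₀ (by linarith)]
      nlinarith
    have hcard : 0 < Fintype.card (PairT m) := Fintype.card_pos_iff.2 ⟨p0⟩
    have e3 : (x - 2) ^ Fintype.card (PairT m) =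
        (x - 2) * (x - 2) ^ (Fintype.card (PairT m) - 1) := by
      rw [← pow_succ']; congr 1; omega
    rw [e3, ← mul_assoc]
    apply mul_le_mul e2 e1
    · exact Finset.prod_nonneg (fun p _ => by have := (hcs p).2; linarith)
    · apply mul_nonneg
      · apply div_nonneg <;> linarith
      · linarith
  unfold Tm
  rw [abs_mul, abs_mul, abs_pow, abs_pow, abs_of_nonneg hprod0]
  have hT : (∏ p : PairT m, (x - cnt π (SP p))) ^ T ≤
      ((2 * (m : ℝ) - 3) / (2 * m - 2)) ^ T * ((x - 2) ^ Fintype.card (PairT m)) ^ T := by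
    rw [← mul_pow]
    exact pow_le_pow_left₀ hprod0 hprod T
  have hKb : |x - cnt π (dbl I3)| ^ K ≤ (2 * (m : ℝ)) ^ K := by
    apply pow_le_pow_left₀ (abs_nonneg _)
    have : (0 : ℝ) ≤ cnt π (dbl I3) := Nat.cast_nonneg _
    rw [abs_le]; constructor <;> linarith
  have hT0 : 0 ≤ (∏ p : PairT m, (x - cnt π (SP p))) ^ T := pow_nonneg hprod0 T
  calc |ff (cnt π Finset.univ) x| *
        ((∏ p : PairT m, (x - cnt π (SP p))) ^ T * |x - cnt π (dbl I3)| ^ K)
      ≤ (2 * (m : ℝ)) ^ (2 * m) * ((((2 * (m : ℝ) - 3) / (2 * m - 2)) ^ T *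
          ((x - 2) ^ Fintype.card (PairT m)) ^ T) * (2 * (m : ℝ)) ^ K) := by
        apply mul_le_mul hff _ (by positivity) (by positivity)
        exact mul_le_mul hT hKb (by positivity) (hT0.trans hT)
    _ = _ := by ring

theorem Tm_nonneg (m T K : ℕ) (hm : 3 ≤ m) (I3 : Finset (Fin m)) (h3 : I3.card = 3)
    (π : Setoid (Fin m × Bool)) (x : ℝ) (hx : 2 * (m : ℝ) ≤ x) :
    0 ≤ Tm m T K I3 π x := by
  have hmr : (3 : ℝ) ≤ m := by exact_mod_cast hm
  have hc3 : (cnt π (dbl I3) : ℝ) ≤ 6 := by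
    have := cnt_le π (dbl I3)
    rw [card_dbl, h3] at this
    exact_mod_cast this
  have hku : (cnt π Finset.univ : ℝ) ≤ 2 * m := by exact_mod_cast univ_le π
  unfold Tm
  apply mul_nonneg
  · apply ff_nonneg; linarith
  · apply mul_nonneg
    · apply pow_nonneg
      apply Finset.prod_nonneg
      intro p _
      have : (cnt π (SP p) : ℝ) ≤ 4 := by exact_mod_cast SP_le π p
      linarith
    · apply pow_nonneg; linarith

end Pool.Agent.X53.Orb
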