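import Mathlib
import Pool.Agent.X53.Orb.Crown

/-! Assembly: the graph, its chromatic polynomial, the orbital chromatic polynomial. -/

namespace Pool.Agent.X53.Orb

open Finset Classical Polynomial

/-- attached vertices: `T` for every ordered pair of distinct indices, and `K` for a triple. -/
abbrev BT (m T K : ℕ) : Type := (PairT m × Fin T) ⊕ Fin K

def Nb {m : ℕ} (T K : ℕ) (I3 : Finset (Fin m)) : BT m T K → Finset (Fin m × Bool) :=
  Sum.elim (fun p => SP p.1) (fun _ => dbl I3)

theorem ff_nat (q k : ℕ) : ff k q = (q.descFactorial k : ℝ) := by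
  induction k with
  | zero => simp [ff]
  | succ k ih =>
    rw [ff_succ, ih, Nat.descFactorial_succ]
    by_cases h : k ≤ q
    · rw [Nat.cast_mul, Nat.cast_sub h, mul_comm]
    · rw [Nat.descFactorial_eq_zero_iff_lt.2 (not_le.1 h)]
      simp

theorem term_nat (m T K : ℕ) (I3 : Finset (Fin m)) (π : Setoid (Fin m × Bool)) (q : ℕ) :
    ((q.descFactorial (cnt π Finset.univ) * ∏ b, (q - cnt π (Nb T K I3 b)) : ℕ) : ℝ) =
      Tm m T K I3 π q := by
  unfold Tm
  rw [ff_nat]
  by_cases h : cnt π Finset.univ ≤ q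
  · have hS : ∀ S : Finset (Fin m × Bool), cnt π S ≤ q := fun S =>
      le_trans (Finset.card_le_card (Finset.image_subset_image (Finset.subset_univ S))) h
    rw [Fintype.prod_sum_type, Fintype.prod_prod_type]
    simp only [Nb, Sum.elim_inl, Sum.elim_inr, Finset.prod_const, Finset.card_univ,
      Fintype.card_fin]
    push_cast
    rw [Nat.cast_sub (hS _), Finset.prod_pow]
    congr 3
    apply Finset.prod_congr rfl
    intro p _
    rw [Nat.cast_sub (hS _)]
  · rw [Nat.descFactorial_eq_zero_iff_lt.2 (not_le.1 h)]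
    simp

/-- the polynomial with values `Tm` -/
noncomputable def TmP (m T K : ℕ) (I3 : Finset (Fin m)) (π : Setoid (Fin m × Bool)) : ℝ[X] :=
  (∏ i ∈ Finset.range (cnt π Finset.univ), (X - C (i : ℝ))) *
    ((∏ p : PairT m, (X - C (cnt π (SP p) : ℝ))) ^ T * (X - C (cnt π (dbl I3) : ℝ)) ^ K)

theorem TmP_eval (m T K : ℕ) (I3 : Finset (Fin m)) (π : Setoid (Fin m × Bool)) (x : ℝ) :
    (TmP m T K I3 π).eval x = Tm m T K I3 π x := by
  unfold TmP Tm ff
  simp only [eval_mul, eval_pow, eval_prod, eval_sub, eval_X, eval_C]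

/-- the chromatic polynomial -/
noncomputable def ChP (m T K : ℕ) (I3 : Finset (Fin m)) : ℝ[X] :=
  ∑ π : Setoid (Fin m × Bool), if PropS (crown m) π then TmP m T K I3 π else 0

theorem ChP_eval (m T K : ℕ) (I3 : Finset (Fin m)) (x : ℝ) :
    (ChP m T K I3).eval x =
      ∑ π : Setoid (Fin m × Bool), if PropS (crown m) π then Tm m T K I3 π x else 0 := by
  unfold ChP
  rw [eval_finset_sum]
  apply Finset.sum_congr rfl
  intro π _
  split_ifs
  · exact TmP_eval m T K I3 π x
  · simp

/-- the graph -/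
def Gam (m T K : ℕ) (I3 : Finset (Fin m)) : SimpleGraph ((Fin m × Bool) ⊕ BT m T K) :=
  attach (crown m) (Nb T K I3)

theorem ChP_nat (m T K : ℕ) (I3 : Finset (Fin m)) (q : ℕ) :
    (ChP m T K I3).eval (q : ℝ) = Nat.card (ProperCol (Gam m T K I3) q) := by
  unfold Gam
  rw [total_card, ChP_eval, Nat.cast_sum]
  apply Finset.sum_congr rfl
  intro π _
  split_ifs
  · rw [← term_nat]
  · simp

/-- the involution -/
def inv (m T K : ℕ) : Equiv.Perm ((Fin m × Bool) ⊕ BT m T K) :=
  Equiv.sumCongr (Equiv.prodCongr (Equiv.refl _) Equiv.boolNot) (Equiv.refl _)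

theorem inv_inl (m T K : ℕ) (u : Fin m × Bool) :
    inv m T K (Sum.inl u) = Sum.inl (u.1, !u.2) := rfl

theorem inv_inr (m T K : ℕ) (b : BT m T K) : inv m T K (Sum.inr b) = Sum.inr b := rfl

theorem inv_inv (m T K : ℕ) (x) : inv m T K (inv m T K x) = x := by
  rcases x with ⟨i, a⟩ | b
  · rw [inv_inl, inv_inl]; simp
  · rfl

theorem mem_dbl {m : ℕ} (I : Finset (Fin m)) (i : Fin m) (a b : Bool) :
    (i, a) ∈ dbl I ↔ (i, b) ∈ dbl I := by
  simp [dbl]

theorem mem_Nb {m : ℕ} (T K : ℕ) (I3 : Finset (Fin m)) (β : BT m T K) (i : Fin m) (a b : Bool) :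
    (i, a) ∈ Nb T K I3 β ↔ (i, b) ∈ Nb T K I3 β := by
  rcases β with p | k
  · exact mem_dbl _ i a b
  · exact mem_dbl _ i a b

theorem inv_adj (m T K : ℕ) (I3 : Finset (Fin m)) (x y) :
    (Gam m T K I3).Adj (inv m T K x) (inv m T K y) ↔ (Gam m T K I3).Adj x y := by
  rcases x with ⟨i, a⟩ | b <;> rcases y with ⟨j, c⟩ | b'
  · show (i ≠ j ∧ (!a) ≠ (!c)) ↔ (i ≠ j ∧ a ≠ c)
    cases a <;> cases c <;> simp
  · show (i, !a) ∈ Nb T K I3 b' ↔ (i, a) ∈ Nb T K I3 b'
    exact mem_Nb T K I3 b' i _ _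
  · show (j, !c) ∈ Nb T K I3 b ↔ (j, c) ∈ Nb T K I3 b
    exact mem_Nb T K I3 b j _ _
  · exact Iff.rfl

/-- the group of order two generated by the involution -/
def GG (m T K : ℕ) : Subgroup (Equiv.Perm ((Fin m × Bool) ⊕ BT m T K)) where
  carrier := {σ | σ = 1 ∨ σ = inv m T K}
  one_mem' := Or.inl rfl
  mul_mem' := by
    have hsq : inv m T K * inv m T K = 1 := by
      ext x : 1
      exact inv_inv m T K x
    rintro a b (rfl | rfl) (rfl | rfl)
    · left; simp
    · right; simp
    · right; simp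
    · left; exact hsq
  inv_mem' := by
    have hsq : inv m T K * inv m T K = 1 := by
      ext x : 1
      exact inv_inv m T K x
    rintro a (rfl | rfl)
    · left; simp
    · right
      exact inv_eq_of_mul_eq_one_left hsq

/-- the involution on colourings -/
def tau (m T K : ℕ) (I3 : Finset (Fin m)) (q : ℕ) (c : ProperCol (Gam m T K I3) q) :
    ProperCol (Gam m T K I3) q :=
  ⟨fun x => c.1 (inv m T K x), fun u v h => c.2 _ _ ((inv_adj m T K I3 u v).2 h)⟩

theorem tau_fixed (m T K : ℕ) (I3 : Finset (Fin m)) (q : ℕ) (c : ProperCol (Gam m T K I3) q) :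
    tau m T K I3 q c = c ↔ Setoid.ker (fun u => c.1 (Sum.inl u)) = πs m := by
  constructor
  · intro h
    have h1 : ∀ i a, c.1 (Sum.inl (i, !a)) = c.1 (Sum.inl (i, a)) := by
      intro i a
      have := congrFun (congrArg Subtype.val h) (Sum.inl (i, a))
      exact this
    have h2 : ∀ i a b, c.1 (Sum.inl (i, a)) = c.1 (Sum.inl (i, b)) := by
      intro i a b
      cases a <;> cases b
      · rfl
      · exact (h1 i false).symm
      · exact (h1 i true).symm
      · rfl
    ext ⟨i, a⟩ ⟨j, b⟩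
    show c.1 (Sum.inl (i, a)) = c.1 (Sum.inl (j, b)) ↔ i = j
    constructor
    · intro hab
      by_contra hij
      have h3 : (Gam m T K I3).Adj (Sum.inl (i, false)) (Sum.inl (j, true)) :=
        show (i ≠ j ∧ false ≠ true) from ⟨hij, by simp⟩
      apply c.2 _ _ h3
      rw [h2 i false a, h2 j true b]
      exact hab
    · rintro rfl
      exact h2 i a b
  · intro h
    apply Subtype.ext
    funext x
    rcases x with ⟨i, a⟩ | b
    · show c.1 (Sum.inl (i, !a)) = c.1 (Sum.inl (i, a))
      have : (Setoid.ker (fun u => c.1 (Sum.inl u))) (i, !a) (i, a) := by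
        rw [h]
        show i = i
        rfl
      exact this
    · rfl

/-- the orbital chromatic polynomial -/
noncomputable def OrP (m T K : ℕ) (I3 : Finset (Fin m)) : ℝ[X] :=
  C (1 / 2) * (ChP m T K I3 + TmP m T K I3 (πs m))

theorem OrP_nat (m T K : ℕ) (I3 : Finset (Fin m)) (q : ℕ) :
    (OrP m T K I3).eval (q : ℝ) = Nat.card (Quot (fun c c' : ProperCol (Gam m T K I3) q =>
      ∃ σ ∈ GG m T K, ∀ v, c'.1 v = c.1 (σ v))) := by
  have h1 := two_mul_card_quot (tau m T K I3 q) (by
      intro c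
      apply Subtype.ext
      funext x
      show c.1 (inv m T K (inv m T K x)) = c.1 x
      rw [inv_inv]) (fun c c' : ProperCol (Gam m T K I3) q =>
      ∃ σ ∈ GG m T K, ∀ v, c'.1 v = c.1 (σ v)) (by
      intro c c'
      constructor
      · rintro ⟨σ, hσ, h⟩
        rcases hσ with rfl | rfl
        · left
          apply Subtype.ext
          funext v
          exact h v
        · right
          apply Subtype.ext
          funext v
          exact h v
      · rintro (h | h)
        · exact ⟨1, Or.inl rfl, fun v => by rw [h]; rfl⟩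
        · exact ⟨inv m T K, Or.inr rfl, fun v => by rw [h]; rfl⟩)
  have h2 : Nat.card {c : ProperCol (Gam m T K I3) q // tau m T K I3 q c = c} =
      Nat.card {c : ProperCol (Gam m T K I3) q //
        Setoid.ker (fun u => c.1 (Sum.inl u)) = πs m} :=
    Nat.card_congr (Equiv.subtypeEquivRight (fun c => tau_fixed m T K I3 q c))
  rw [h2] at h1
  have h3 := fiber_card (crown m) (Nb T K I3) q (πs m)
  rw [if_pos (propS_πs m)] at h3
  have h4 : Nat.card {c : ProperCol (Gam m T K I3) q //
        Setoid.ker (fun u => c.1 (Sum.inl u)) = πs m} =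
      q.descFactorial (cnt (πs m) Finset.univ) * ∏ b, (q - cnt (πs m) (Nb T K I3 b)) := h3
  rw [h4] at h1
  have h5 := congrArg (Nat.cast : ℕ → ℝ) h1
  rw [Nat.cast_add, term_nat, ← ChP_nat, Nat.cast_mul] at h5
  unfold OrP
  rw [eval_mul, eval_C, eval_add, TmP_eval]
  push_cast at h5
  linarith

end Pool.Agent.X53.Orb
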