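import Mathlib
import Pool.Agent.X53.Orb.Fin

/-! Final estimates. -/

namespace Pool.Agent.X53.Orb

open Finset Classical Polynomial

theorem ff_continuous (k : ℕ) : Continuous (ff k) := by
  unfold ff
  exact continuous_finset_prod _ (fun i _ => continuous_id.sub continuous_const)

theorem g_continuous (m K : ℕ) : Continuous (g m K) := by
  unfold g
  exact ((ff_continuous m).mul ((continuous_id.sub continuous_const).pow K)).add
    ((continuous_id.mul (continuous_id.sub continuous_const)).mul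
      ((continuous_id.sub continuous_const).pow K))

theorem πs_ne_πd (m : ℕ) (hm : 0 < m) : πs m ≠ πd m := by
  intro h
  have h1 : (πs m) (⟨0, hm⟩, false) (⟨0, hm⟩, true) := rfl
  rw [h] at h1
  have h2 : (false : Bool) = true := h1
  exact Bool.noConfusion h2

/-- the chromatic polynomial is `(x-2)^{nT} (g(x) + small)` -/
theorem ChP_close (m T K : ℕ) (hm : 3 ≤ m) (I3 : Finset (Fin m)) (h3 : I3.card = 3) (x : ℝ)
    (hx : 6 ≤ x) (hx2 : x ≤ 2 * m) :
    |(ChP m T K I3).eval x - ((x - 2) ^ Fintype.card (PairT m)) ^ T * g m K x| ≤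
      (Fintype.card (Setoid (Fin m × Bool)) : ℝ) * ((2 * (m : ℝ)) ^ (2 * m) * ((2 * (m : ℝ)) ^ K *
      (((2 * (m : ℝ) - 3) / (2 * m - 2)) ^ T * ((x - 2) ^ Fintype.card (PairT m)) ^ T))) := by
  have hmr : (3 : ℝ) ≤ m := by exact_mod_cast hm
  rw [ChP_eval]
  have hne := πs_ne_πd m (by omega)
  rw [← Finset.add_sum_erase _ _ (Finset.mem_univ (πs m)),
    ← Finset.add_sum_erase _ _ (show πd m ∈ Finset.univ.erase (πs m) from
      Finset.mem_erase.2 ⟨hne.symm, Finset.mem_univ _⟩)]
  rw [if_pos (propS_πs m), if_pos (propS_πd m), Tm_πs m T K I3 h3, Tm_πd m T K (by omega) I3 h3]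
  have e : ff m x * (((x - 2) ^ Fintype.card (PairT m)) ^ T * (x - 3) ^ K) +
      (ff 2 x * (((x - 2) ^ Fintype.card (PairT m)) ^ T * (x - 2) ^ K) +
      ∑ π ∈ (Finset.univ.erase (πs m)).erase (πd m),
        if PropS (crown m) π then Tm m T K I3 π x else 0) -
      ((x - 2) ^ Fintype.card (PairT m)) ^ T * g m K x =
      ∑ π ∈ (Finset.univ.erase (πs m)).erase (πd m),
        if PropS (crown m) π then Tm m T K I3 π x else 0 := by
    unfold g
    rw [ff_two]
    ring
  rw [e]
  set bd := ((2 * (m : ℝ)) ^ (2 * m) * ((2 * (m : ℝ)) ^ K *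
      (((2 * (m : ℝ) - 3) / (2 * m - 2)) ^ T * ((x - 2) ^ Fintype.card (PairT m)) ^ T))) with hbd
  have hbd0 : 0 ≤ bd := by
    have h1 : 0 ≤ (2 * (m : ℝ) - 3) / (2 * m - 2) := by
      apply div_nonneg <;> linarith
    have h2 : 0 ≤ x - 2 := by linarith
    rw [hbd]
    positivity
  calc |∑ π ∈ (Finset.univ.erase (πs m)).erase (πd m),
        if PropS (crown m) π then Tm m T K I3 π x else 0|
      ≤ ∑ π ∈ (Finset.univ.erase (πs m)).erase (πd m),
        |if PropS (crown m) π then Tm m T K I3 π x else 0| := Finset.abs_sum_le_sum_abs _ _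
    _ ≤ ∑ _π ∈ (Finset.univ.erase (πs m)).erase (πd m), bd := by
        apply Finset.sum_le_sum
        intro π hπ
        rw [Finset.mem_erase, Finset.mem_erase] at hπ
        split_ifs with hp
        · exact Tm_bound m T K hm I3 h3 π hp hπ.2.1 hπ.1 x hx hx2
        · rw [abs_zero]; exact hbd0
    _ ≤ (Fintype.card (Setoid (Fin m × Bool)) : ℝ) * bd := by
        rw [Finset.sum_const, nsmul_eq_mul]
        apply mul_le_mul_of_nonneg_right _ hbd0
        exact_mod_cast Finset.card_le_univ _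

theorem main (N : ℕ) : ∃ (m T K : ℕ) (I3 : Finset (Fin m)) (lam r : ℝ), 0 < m ∧
    IsGreatest {s | (ChP m T K I3).IsRoot s} lam ∧ (OrP m T K I3).IsRoot r ∧ lam + N ≤ r := by
  obtain ⟨K, x1, hx1, hx2, hg, hneg⟩ := ana N
  set m := 2 * N + 20 with hm
  have hN : (0 : ℝ) ≤ N := Nat.cast_nonneg N
  have hmr : (m : ℝ) = 2 * N + 20 := by rw [hm]; push_cast; ring
  let I3 : Finset (Fin m) := {⟨0, by omega⟩, ⟨1, by omega⟩, ⟨2, by omega⟩}
  have h3 : I3.card = 3 := by
    apply Finset.card_eq_three.2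
    exact ⟨⟨0, by omega⟩, ⟨1, by omega⟩, ⟨2, by omega⟩, by simp, by simp, by simp, rfl⟩
  have hm3 : 3 ≤ m := by omega
  set n := Fintype.card (PairT m) with hn
  -- minimum of g
  obtain ⟨y, hy, hymin⟩ := (isCompact_Icc (a := (N : ℝ) + 18) (b := 2 * (m : ℝ))).exists_isMinOn
    ⟨(N : ℝ) + 18, by rw [Set.mem_Icc]; constructor <;> linarith⟩ (g_continuous m K).continuousOn
  have hgy : 0 < g m K y := hg y hy.1
  set δ1 := g m K y with hδ1
  set δ2 := -(2 * (ff m x1 * (x1 - 3) ^ K) + x1 * (x1 - 1) * (x1 - 2) ^ K) with hδ2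
  have hδ2pos : 0 < δ2 := by rw [hδ2]; linarith
  set δ := min δ1 δ2 with hδ
  have hδpos : 0 < δ := lt_min hgy hδ2pos
  set M := (Fintype.card (Setoid (Fin m × Bool)) : ℝ) * ((2 * (m : ℝ)) ^ (2 * m) *
    (2 * (m : ℝ)) ^ K) with hM
  have hM0 : 0 ≤ M := by positivity
  set θ := (2 * (m : ℝ) - 3) / (2 * m - 2) with hθ
  have hθ0 : 0 ≤ θ := by rw [hθ]; apply div_nonneg <;> linarith
  have hθ1 : θ < 1 := by rw [hθ, div_lt_one (by linarith)]; linarith
  obtain ⟨T, hT⟩ := exists_pow_lt_of_lt_one (show 0 < δ / (M + 1) by positivity) hθ1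
  have hMT : M * θ ^ T < δ := by
    rw [lt_div_iff₀ (by positivity)] at hT
    have : 0 ≤ θ ^ T := pow_nonneg hθ0 T
    nlinarith
  have hclose : ∀ x : ℝ, 6 ≤ x → x ≤ 2 * m →
      |(ChP m T K I3).eval x - ((x - 2) ^ n) ^ T * g m K x| ≤ (M * θ ^ T) * ((x - 2) ^ n) ^ T := by
    intro x h6 h2m
    have h := ChP_close m T K hm3 I3 h3 x h6 h2m
    rw [← hn, ← hθ] at h
    refine h.trans (le_of_eq ?_)
    rw [hM]; ring
  have hW : ∀ x : ℝ, 6 ≤ x → 0 < ((x - 2) ^ n) ^ T := by
    intro x hx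
    have : 0 < x - 2 := by linarith
    positivity
  -- positivity of the chromatic polynomial
  have hpos : ∀ x : ℝ, (N : ℝ) + 18 ≤ x → 0 < (ChP m T K I3).eval x := by
    intro x hx
    rcases le_total x (2 * m) with h | h
    · have h1 := (abs_le.1 (hclose x (by linarith) h)).1
      have h2 : δ ≤ g m K x := (min_le_left _ _).trans (hymin ⟨hx, h⟩)
      have h4 := hW x (by linarith)
      have h5 : 0 < ((x - 2) ^ n) ^ T * (g m K x - M * θ ^ T) := mul_pos h4 (by linarith)
      nlinarith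
    · rw [ChP_eval]
      apply Finset.sum_pos'
      · intro π _
        split_ifs
        · exact Tm_nonneg m T K hm3 I3 h3 π x h
        · exact le_rfl
      · refine ⟨πd m, Finset.mem_univ _, ?_⟩
        rw [if_pos (propS_πd m), Tm_πd m T K (by omega) I3 h3, ff_two]
        have h1 : 0 < x * (x - 1) := by nlinarith
        have h2 : 0 < x - 2 := by linarith
        positivity
  -- the orbital polynomial is negative at x1
  have hOr : ∀ x, (OrP m T K I3).eval x = 1 / 2 * ((ChP m T K I3).eval x + Tm m T K I3 (πs m) x) := by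
    intro x
    unfold OrP
    rw [eval_mul, eval_C, eval_add, TmP_eval]
  have hneg1 : (OrP m T K I3).eval x1 < 0 := by
    rw [hOr, Tm_πs m T K I3 h3]
    have h1 := (abs_le.1 (hclose x1 (by linarith) (by linarith))).2
    have h2 : δ ≤ δ2 := min_le_right _ _
    have h4 := hW x1 (by linarith)
    rw [← hn]
    have h5 : ((x1 - 2) ^ n) ^ T * (g m K x1 + ff m x1 * (x1 - 3) ^ K + M * θ ^ T) < 0 := by
      apply mul_neg_of_pos_of_neg h4
      unfold g
      rw [hδ2] at h2
      linarith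
    nlinarith
  have hpos2 : 0 < (OrP m T K I3).eval (2 * (m : ℝ)) := by
    rw [hOr]
    have h1 := hpos (2 * (m : ℝ)) (by linarith)
    have h2 := Tm_nonneg m T K hm3 I3 h3 (πs m) (2 * (m : ℝ)) le_rfl
    linarith
  obtain ⟨r, hr, hr0⟩ := intermediate_value_Icc (show x1 ≤ 2 * (m : ℝ) by linarith)
    (Polynomial.continuous_aeval (OrP m T K I3)).continuousOn
    (show (0 : ℝ) ∈ Set.Icc _ _ from ⟨by simpa using hneg1.le, by simpa using hpos2.le⟩)
  have hrr : (OrP m T K I3).IsRoot r := by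
    simpa [Polynomial.IsRoot] using hr0
  -- the largest real root of the chromatic polynomial
  have hP0 : ChP m T K I3 ≠ 0 := by
    intro h0
    have := hpos ((N : ℝ) + 18) le_rfl
    rw [h0] at this
    simp at this
  have hroot0 : (ChP m T K I3).IsRoot 0 := by
    have h1 := ChP_nat m T K I3 0
    have h2 : IsEmpty (ProperCol (Gam m T K I3) 0) :=
      ⟨fun c => (c.1 (Sum.inl (⟨0, by omega⟩, false))).elim0⟩
    rw [Nat.card_of_isEmpty] at h1
    simpa [Polynomial.IsRoot] using h1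
  have hfin : {s | (ChP m T K I3).IsRoot s}.Finite := by
    have := (ChP m T K I3).roots.toFinset.finite_toSet
    refine this.subset ?_
    intro s hs
    rw [Finset.mem_coe, Multiset.mem_toFinset, Polynomial.mem_roots hP0]
    exact hs
  obtain ⟨lam, hlam, hlmax⟩ := Set.exists_max_image _ id hfin ⟨0, hroot0⟩
  refine ⟨m, T, K, I3, lam, r, by omega, ⟨hlam, fun s hs => hlmax s hs⟩, hrr, ?_⟩
  have hlt : lam < (N : ℝ) + 18 := by
    by_contra hcon
    push Not at hcon
    have h1 := hpos lam hcon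
    have h2 : (ChP m T K I3).eval lam = 0 := hlam
    linarith
  have := hr.1
  linarith

end Pool.Agent.X53.Orb
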